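import Pool.Agent.J4H21.EE.Stm

/-!
# Project EE: rotation, prefixes, parity (helper81)
-/

set_option autoImplicit false

namespace Pool.Agent.J4H81.EE

open Finset KN
open Pool.Agent.J4H21.EE

theorem mem_W {n : ℕ} {v : List Dir} : v ∈ KN.W n ↔ v.length = n := by
  unfold KN.W
  rw [Finset.mem_image]
  constructor
  · rintro ⟨f, -, rfl⟩
    rw [List.length_ofFn]
  · rintro rfl
    exact ⟨fun i => v.get i, Finset.mem_univ _, List.ofFn_get v⟩

theorem mem_S {n : ℕ} {v : List Dir} : v ∈ S n ↔ v.length = n ∧ KN.SAW v := by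
  classical
  unfold S
  rw [Finset.mem_filter, mem_W]

theorem mem_P {n : ℕ} {v : List Dir} : v ∈ P n ↔ v.length = n ∧ KN.SAP v := by
  classical
  unfold P
  rw [Finset.mem_filter, mem_W]

theorem zero_mem (w : List Dir) : (0 : Z3) ∈ path w := by
  induction w with
  | nil => simp [path]
  | cons d l ih => simp [path, ih]

theorem path_eq (w : List Dir) : path w = pos w :: (path w).tail := by
  cases w <;> rfl

theorem path_snoc (d : Dir) (l : List Dir) : path (l ++ [d]) = (path l).map (fun p => p + vec d) ++ [0] := by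
  have hp : ∀ l : List Dir, pos (l ++ [d]) = pos l + vec d := by
    intro l
    induction l with
    | nil => simp [pos]
    | cons e l ih => rw [List.cons_append, pos, ih, pos]; abel
  induction l with
  | nil => simp [path, pos]
  | cons e l ih =>
    rw [List.cons_append, path, ih, path, hp, List.map_cons, List.cons_append, add_right_comm]

theorem sap_rotate_one {w : List Dir} (h : KN.SAP w) : KN.SAP (w.rotate 1) := by
  obtain ⟨h4, h0, hn⟩ := h
  rcases w with _ | ⟨d, l⟩
  · simp at h4
  have e : (d :: l).rotate 1 = l ++ [d] := by simp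
  rw [e]
  have hn' : (path l).Nodup := hn
  have h0' : pos l + vec d = 0 := h0
  refine ⟨by simpa using h4, ?_, ?_⟩
  · have h2 : path (l ++ [d]) = (pos l + vec d) :: ((path l).tail.map (fun p => p + vec d) ++ [0]) := by
      rw [path_snoc]
      conv_lhs => rw [path_eq l]
      rfl
    have h3 := path_eq (l ++ [d])
    rw [h2] at h3
    have h4 := List.head_eq_of_cons_eq h3
    rw [← h4, h0']
  · have h2 : path (l ++ [d]) = (pos l + vec d) :: ((path l).tail.map (fun p => p + vec d) ++ [0]) := by
      rw [path_snoc]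
      conv_lhs => rw [path_eq l]
      rfl
    rw [h2, List.tail_cons]
    rw [path_eq l] at hn'
    obtain ⟨h5, h6⟩ := List.nodup_cons.1 hn'
    rw [List.nodup_append]
    refine ⟨h6.map (fun a b hab => add_right_cancel hab), List.nodup_singleton _, ?_⟩
    intro a ha b hb hab
    rw [List.mem_singleton] at hb
    subst hb
    subst hab
    obtain ⟨p, hp, hp0⟩ := List.mem_map.1 ha
    apply h5
    have : p = pos l := add_right_cancel (hp0.trans h0'.symm)
    rwa [this] at hp

theorem sap_rotate {w : List Dir} (h : KN.SAP w) (i : ℕ) : KN.SAP (w.rotate i) := by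
  induction i with
  | zero => simpa using h
  | succ i ih =>
    rw [← List.rotate_rotate]
    exact sap_rotate_one ih

theorem t_ROT : S_ROT := by
  classical
  intro n i Q
  refine Finset.card_bij (fun v _ => v.rotate i) ?_ ?_ ?_
  · intro v hv
    rw [Finset.mem_filter, mem_P] at hv ⊢
    exact ⟨⟨by rw [List.length_rotate]; exact hv.1.1, sap_rotate hv.1.2 i⟩, hv.2⟩
  · intro v _ v' _ h
    exact List.rotate_injective i h
  · intro u hu
    rw [Finset.mem_filter, mem_P] at hu
    have h4 : 1 ≤ u.length := by
      have := hu.1.2.1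
      omega
    have hk : u.length * i - i + i = u.length * i := Nat.sub_add_cancel (Nat.le_mul_of_pos_left i h4)
    have e : (u.rotate (u.length * i - i)).rotate i = u := by
      rw [List.rotate_rotate, hk, List.rotate_length_mul]
    refine ⟨u.rotate (u.length * i - i), ?_, e⟩
    rw [Finset.mem_filter, mem_P, e]
    exact ⟨⟨by rw [List.length_rotate]; exact hu.1.1, sap_rotate hu.1.2 _⟩, hu.2⟩

theorem t_PRE : S_PRE := by
  classical
  intro n d u
  unfold A B
  have hdis : Disjoint ((S (n + 1)).filter (fun v => (d :: u) <+: v)) ((P (n + 1)).filter (fun v => (d :: u) <+: v)) := by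
    rw [Finset.disjoint_left]
    intro v hv hv'
    rw [Finset.mem_filter, mem_S] at hv
    rw [Finset.mem_filter, mem_P] at hv'
    have h1 : (path v).Nodup := hv.1.2
    rw [path_eq] at h1
    obtain ⟨h2, -⟩ := List.nodup_cons.1 h1
    apply h2
    rw [hv'.1.2.2.1]
    obtain ⟨t, ht⟩ := hv.2
    rw [← ht]
    exact zero_mem (u ++ t)
  rw [← Finset.card_union_of_disjoint hdis]
  refine Finset.card_le_card_of_injOn (fun v => v.tail) ?_ ?_
  · intro v hv
    rw [Finset.mem_coe, Finset.mem_union, Finset.mem_filter, Finset.mem_filter, mem_S, mem_P] at hv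
    rw [Finset.mem_coe, Finset.mem_filter, mem_S]
    rcases hv with ⟨⟨hl, hs⟩, t, ht⟩ | ⟨⟨hl, hs⟩, t, ht⟩
    · subst ht
      refine ⟨⟨by simpa using hl, ?_⟩, t, rfl⟩
      have h1 : (path (d :: (u ++ t))).Nodup := hs
      exact (List.nodup_cons.1 h1).2
    · subst ht
      refine ⟨⟨by simpa using hl, ?_⟩, t, rfl⟩
      exact hs.2.2
  · intro v hv v' hv' h
    have key : ∀ x ∈ ((S (n + 1)).filter (fun v => (d :: u) <+: v)) ∪ ((P (n + 1)).filter (fun v => (d :: u) <+: v)), x = d :: x.tail := by
      intro x hx
      rw [Finset.mem_union, Finset.mem_filter, Finset.mem_filter] at hx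
      rcases hx with ⟨-, t, ht⟩ | ⟨-, t, ht⟩ <;> · subst ht; rfl
    rw [key v hv, key v' hv']
    exact congrArg _ h

/-- the parity of the sum of the coordinates -/
theorem par_pos (w : List Dir) : ((pos w).1 + (pos w).2.1 + (pos w).2.2 - w.length) % 2 = 0 := by
  induction w with
  | nil => simp [pos]
  | cons d l ih =>
    rw [pos, List.length_cons]
    cases d <;> simp only [vec, Prod.fst_add, Prod.snd_add] <;> push_cast <;> omega

theorem t_PAR : S_PAR := by
  intro n hn
  rw [Finset.eq_empty_iff_forall_notMem]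
  intro v hv
  rw [mem_P] at hv
  have h := par_pos v
  rw [hv.2.2.1, hv.1] at h
  simp only [Prod.fst_zero, Prod.snd_zero] at h
  omega

end Pool.Agent.J4H81.EE
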