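import Pool.Agent.J4H81.EE.Rot

/-!
# Project EE: extension at both ends (helper81)
-/

set_option autoImplicit false

namespace Pool.Agent.J4H81.EE

open Finset KN
open Pool.Agent.J4H21.EE

/-- the letters which extend the walk at its end -/
noncomputable def X1 (w : List Dir) : Finset Dir := by
  classical exact (univ : Finset Dir).filter (fun d => KN.SAW (d :: w))

/-- the letters which extend the walk at its start -/
noncomputable def X0 (w : List Dir) : Finset Dir := by
  classical exact (univ : Finset Dir).filter (fun e => KN.SAW (w ++ [e]))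

theorem mem_X1 {w : List Dir} {d : Dir} : d ∈ X1 w ↔ KN.SAW (d :: w) := by
  unfold X1
  simp

theorem mem_X0 {w : List Dir} {e : Dir} : e ∈ X0 w ↔ KN.SAW (w ++ [e]) := by
  unfold X0
  simp

theorem vneg (d : Dir) : vec (neg d) = - vec d := by cases d <;> decide

theorem card_erase_le (d : Dir) (X : Finset Dir) (h : d ∉ X) : X.card ≤ 5 := by
  have h1 : X ⊆ univ.erase d := fun x hx => by
    rw [mem_erase]
    exact ⟨fun e => h (e ▸ hx), mem_univ _⟩
  have h2 := card_le_card h1
  rw [card_erase_of_mem (mem_univ _)] at h2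
  have h3 : (univ : Finset Dir).card = 6 := rfl
  omega

theorem X1_le {w : List Dir} (hw : w ≠ []) : (X1 w).card ≤ 5 := by
  obtain ⟨d, l, rfl⟩ := List.exists_cons_of_ne_nil hw
  refine card_erase_le (neg d) _ fun h => ?_
  rw [mem_X1] at h
  have h1 : (path (neg d :: d :: l)).Nodup := h
  rw [path] at h1
  apply (List.nodup_cons.1 h1).1
  rw [pos, vneg, add_neg_cancel_right, path]
  apply List.mem_cons_of_mem
  rw [path_eq]
  exact List.mem_cons_self

theorem X0_le {w : List Dir} (hw : w ≠ []) : (X0 w).card ≤ 5 := by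
  obtain ⟨l, d, rfl⟩ : ∃ l d, w = l ++ [d] := ⟨w.dropLast, w.getLast hw, (List.dropLast_append_getLast hw).symm⟩
  refine card_erase_le (neg d) _ fun h => ?_
  rw [mem_X0] at h
  have h1 : (path ((l ++ [d]) ++ [neg d])).Nodup := h
  rw [path_snoc, List.nodup_append] at h1
  refine h1.2.2 0 ?_ 0 (List.mem_singleton_self _) rfl
  rw [List.mem_map]
  refine ⟨vec d, ?_, by rw [vneg, add_neg_cancel]⟩
  rw [path_snoc, List.mem_append, List.mem_map]
  exact Or.inl ⟨0, zero_mem l, zero_add _⟩

theorem saw_tail {d : Dir} {w : List Dir} (h : KN.SAW (d :: w)) : KN.SAW w := by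
  have h1 : (path (d :: w)).Nodup := h
  rw [path] at h1
  exact (List.nodup_cons.1 h1).2

theorem saw_init {e : Dir} {w : List Dir} (h : KN.SAW (w ++ [e])) : KN.SAW w := by
  have h1 : (path (w ++ [e])).Nodup := h
  rw [path_snoc, List.nodup_append] at h1
  exact List.Nodup.of_map _ h1.1

theorem sum_X1 (n : ℕ) : ∑ w ∈ S n, (X1 w).card = (S (n + 1)).card := by
  classical
  rw [← Finset.card_sigma]
  refine Finset.card_bij (fun p _ => p.2 :: p.1) ?_ ?_ ?_
  · intro p hp
    rw [mem_sigma, mem_S, mem_X1] at hp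
    rw [mem_S]
    exact ⟨by simp [hp.1.1], hp.2⟩
  · rintro ⟨w, d⟩ _ ⟨w', d'⟩ _ h
    simp only [List.cons.injEq] at h
    obtain ⟨rfl, rfl⟩ := h
    rfl
  · intro v hv
    rw [mem_S] at hv
    rcases v with _ | ⟨d, w⟩
    · simp at hv
    · refine ⟨⟨w, d⟩, ?_, rfl⟩
      rw [mem_sigma, mem_S, mem_X1]
      exact ⟨⟨by simpa using hv.1, saw_tail hv.2⟩, hv.2⟩

theorem sum_X0 (n : ℕ) : ∑ w ∈ S n, (X0 w).card = (S (n + 1)).card := by
  classical
  rw [← Finset.card_sigma]
  refine Finset.card_bij (fun p _ => p.1 ++ [p.2]) ?_ ?_ ?_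
  · intro p hp
    rw [mem_sigma, mem_S, mem_X0] at hp
    rw [mem_S]
    exact ⟨by simp [hp.1.1], hp.2⟩
  · rintro ⟨w, d⟩ _ ⟨w', d'⟩ _ h
    have h' : w ++ [d] = w' ++ [d'] := h
    obtain ⟨h1, h2⟩ := List.append_inj' h' rfl
    rw [List.cons.injEq] at h2
    obtain ⟨rfl, -⟩ := h2
    subst h1
    rfl
  · intro v hv
    rw [mem_S] at hv
    have hne : v ≠ [] := by
      rintro rfl
      simp at hv
    obtain ⟨l, d, rfl⟩ : ∃ l d, v = l ++ [d] := ⟨v.dropLast, v.getLast hne, (List.dropLast_append_getLast hne).symm⟩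
    refine ⟨⟨l, d⟩, ?_, rfl⟩
    rw [mem_sigma, mem_S, mem_X0]
    exact ⟨⟨by simpa using hv.1, saw_init hv.2⟩, hv.2⟩

theorem both {n : ℕ} (hn : 1 ≤ n) {w : List Dir} (hl : w.length = n) {d e : Dir} (h1 : KN.SAW (d :: w))
    (h0 : KN.SAW (w ++ [e])) : d :: (w ++ [e]) ∈ S (n + 2) ∪ P (n + 2) := by
  rw [mem_union, mem_S, mem_P]
  have hlen : (d :: (w ++ [e])).length = n + 2 := by simp [hl]
  by_cases hs : KN.SAW (d :: (w ++ [e]))
  · exact Or.inl ⟨hlen, hs⟩
  · right
    have hpos : pos (d :: (w ++ [e])) = 0 := by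
      have h2 : pos (w ++ [e]) + vec d ∈ path (w ++ [e]) := by
        by_contra hcon
        apply hs
        show (path (d :: (w ++ [e]))).Nodup
        rw [path, List.nodup_cons]
        exact ⟨hcon, h0⟩
      have hp : pos (w ++ [e]) = pos w + vec e := by
        have h3 := path_snoc e w
        rw [path_eq (w ++ [e]), path_eq w, List.map_cons, List.cons_append] at h3
        exact (List.cons.inj h3).1
      rw [pos]
      rw [path_snoc, List.mem_append] at h2
      rcases h2 with h2 | h2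
      · exfalso
        obtain ⟨p, hp1, hp2⟩ := List.mem_map.1 h2
        have h1' : (path (d :: w)).Nodup := h1
        rw [path] at h1'
        apply (List.nodup_cons.1 h1').1
        have : p = pos w + vec d := by
          rw [hp] at hp2
          have : p + vec e = (pos w + vec d) + vec e := by rw [hp2]; abel
          exact add_right_cancel this
        rwa [← this]
      · exact List.mem_singleton.1 h2
    refine ⟨hlen, ?_, hpos, ?_⟩
    · rw [hlen]
      have h := par_pos (d :: (w ++ [e]))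
      rw [hpos, hlen] at h
      simp only [Prod.fst_zero, Prod.snd_zero] at h
      push_cast at h
      omega
    · exact h0

theorem sum_both {n : ℕ} (hn : 1 ≤ n) :
    ∑ w ∈ S n, (X0 w).card * (X1 w).card ≤ (S (n + 2)).card + (P (n + 2)).card := by
  classical
  have e1 : ∑ w ∈ S n, (X0 w).card * (X1 w).card = ((S n).sigma (fun w => X0 w ×ˢ X1 w)).card := by
    rw [Finset.card_sigma]
    exact sum_congr rfl fun w _ => (card_product _ _).symm
  rw [e1]
  refine le_trans ?_ (card_union_le _ _)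
  refine Finset.card_le_card_of_injOn (fun p => p.2.2 :: (p.1 ++ [p.2.1])) ?_ ?_
  · intro p hp
    rw [mem_coe, mem_sigma, mem_S, mem_product, mem_X0, mem_X1] at hp
    rw [mem_coe]
    exact both hn hp.1.1 hp.2.2 hp.2.1
  · rintro ⟨w, e, d⟩ _ ⟨w', e', d'⟩ _ h
    have h' : d :: (w ++ [e]) = d' :: (w' ++ [e']) := h
    rw [List.cons.injEq] at h'
    obtain ⟨rfl, h''⟩ := h'
    obtain ⟨h1, h2⟩ := List.append_inj' h'' rfl
    rw [List.cons.injEq] at h2
    obtain ⟨rfl, -⟩ := h2
    subst h1
    rfl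

theorem t_TWO : S_TWO := by
  intro n hn
  have h1 : ∑ w ∈ S n, (5 * (X0 w).card + 5 * (X1 w).card) ≤ ∑ w ∈ S n, (25 + (X0 w).card * (X1 w).card) := by
    refine sum_le_sum fun w hw => ?_
    rw [mem_S] at hw
    have hne : w ≠ [] := by
      rintro rfl
      simp at hw
      omega
    have h2 := X0_le hne
    have h3 := X1_le hne
    nlinarith [Nat.mul_le_mul h2 h3, mul_nonneg (sub_nonneg.2 (show ((X0 w).card : ℤ) ≤ 5 by exact_mod_cast h2)) (sub_nonneg.2 (show ((X1 w).card : ℤ) ≤ 5 by exact_mod_cast h3))]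
  rw [sum_add_distrib, sum_add_distrib, ← mul_sum, ← mul_sum, sum_X0, sum_X1, sum_const, smul_eq_mul] at h1
  have h4 := sum_both hn
  omega

end Pool.Agent.J4H81.EE
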